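import Pool.Agent.W599.SA.Main

/-!
# The simple Anosov domains are not maximal domains of discontinuity

Let `S = Γ \ ℍ` be a closed hyperbolic surface, `d ≥ 4` and `1 ≤ k ≤ d - 1`.  There is a set `U` of
points of the character variety `χ(Γ, SL(d, ℂ))`, not contained in the simple `k`-Anosov domain `D_k`,
whose union with any domain of discontinuity of the mapping class group is again a domain of
discontinuity.  In particular `D_k` is not a maximal domain of discontinuity: since `D_k` is a domain of
discontinuity, `D_k ∪ U` is a strictly larger one.

Idea of the proof.  Let `ρ₀ : Γ → SL(2, ℝ)` be the inclusion and let `y` be the character of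
`ρ₀ ⊕ ... ⊕ ρ₀ ⊕ 1 ⊕ ... ⊕ 1` with `p` copies of `ρ₀` and `q = d - 2 p` copies of the trivial
representation, where `p ∈ {1, 2}` is such that `k ∉ {p, d - p}`.  A simple closed geodesic shows that
`y` is not in `D_k`.  Every representation whose character is near `y` is conjugate to one which is
uniformly near to a fixed dominated model on a generating set, so its values grow exponentially along
all of `Γ`; hence the traces of the representations in a neighbourhood `V` of `y` tend to infinity
uniformly as the word length of the conjugacy class tends to infinity.  The set `U` is the union of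
the translates of `V` under the mapping class group.
-/

namespace Pool.Agent.Results.MP_c30652_gt.NotMaximal

open Pool.Agent.W599.SA

/-- Let `Γ` be a discrete, torsion-free, cocompact subgroup of `SL(2, ℝ)` (the fundamental group of
the closed hyperbolic surface `S = Γ \ ℍ`), `d ≥ 4` and `1 ≤ k ≤ d - 1`.  There is a subset `U` of the
character variety, not contained in the simple `k`-Anosov domain, such that `D ∪ U` is a domain of
discontinuity of the mapping class group for every domain of discontinuity `D`; in particular the
simple `k`-Anosov domain is not a maximal domain of discontinuity. -/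
theorem result (Γ : Subgroup SL2) (hΓ : IsClosedSurfaceGroup Γ) (d k : ℕ) (hd : 4 ≤ d)
    (hk : 1 ≤ k) (hkd : k ≤ d - 1) :
    (∃ U : Set (CharVar Γ d), ¬ U ⊆ simpleAnosovDomain Γ d k ∧
      ∀ D : Set (CharVar Γ d), IsDomainOfDiscontinuity Γ d D →
        IsDomainOfDiscontinuity Γ d (D ∪ U)) ∧
    ¬ Maximal (IsDomainOfDiscontinuity Γ d) (simpleAnosovDomain Γ d k) := by
  obtain ⟨U, hU, h⟩ := main hΓ d k hd hk (by omega)
  refine ⟨⟨U, hU, h⟩, fun hm => hU ?_⟩
  exact (Set.subset_union_right).trans (hm.2 (h _ hm.1) Set.subset_union_left)

end Pool.Agent.Results.MP_c30652_gt.NotMaximal
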